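import Mathlib

set_option autoImplicit false

namespace Pool.Agent.Results.MP_a3f2aa_co.Interp

open Finset

variable {V : Type} (G : SimpleGraph V)

/-- Dominating set. -/
def Dom (D : Set V) : Prop := ∀ v, v ∉ D → ∃ u ∈ D, G.Adj v u

/-- Indivisible dominating set. -/
def Indiv (D : Set V) : Prop :=
  Dom G D ∧ ¬ ∃ A B : Set V, D = A ∪ B ∧ Disjoint A B ∧ A.Nonempty ∧ B.Nonempty ∧
    Dom G A ∧ Dom G B

theorem mono {A B : Set V} (h : A ⊆ B) (a : Dom G A) : Dom G B := fun v hv =>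
  (a v fun q => hv (h q)).imp fun _ q => ⟨h q.1, q.2⟩

theorem result [Fintype V] [Nonempty V] (a k d : ℕ) (h₁ : a ≤ k) (h₂ : k ≤ d)
    (p : V → Fin a) (hp : ∀ i, Indiv G {v | p v = i})
    (q : V → Fin d) (hq : ∀ i, Dom G {v | q v = i}) :
    ∃ c : V → Fin k, c.Surjective ∧ ∀ i, Indiv G {v | c v = i} := by
  classical
  have v₀ : V := Classical.arbitrary V
  obtain ⟨c, hc, m⟩ := exists_min_image ({c | ∀ i, Dom G {v | c v = i}} : Finset (V → Fin k))
    (fun c => #{v | c v ≠ (p v).castLE h₁})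
    ⟨fun v => if h : (q v).val < k then ⟨q v, h⟩ else (p v).castLE h₁, mem_filter.2 ⟨mem_univ _,
      fun i => mono G (fun v (hv : q v = i.castLE h₂) => by simp [hv]) (hq _)⟩⟩
  have hc := (mem_filter.1 hc).2
  refine ⟨c, fun i => ?_, fun i => ⟨hc i, ?_⟩⟩
  · by_cases h : c v₀ = i
    · exact ⟨v₀, h⟩
    · exact (hc i v₀ h).imp fun _ h => h.1
  have key : ∀ A B : Set V, {v | c v = i} = A ∪ B → Disjoint A B → Dom G A →
      ∀ v ∈ B, (p v).castLE h₁ = i := fun A B e dj hA v hv => by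
    by_contra n
    have ci : ∀ u ∈ A ∪ B, c u = i := fun u hu => e.ge hu
    refine (m (fun u => if u ∈ B then (p u).castLE h₁ else c u) (mem_filter.2 ⟨mem_univ _,
      fun j => ?_⟩)).not_gt (card_lt_card ⟨fun u hu => ?_, fun s => ?_⟩)
    · by_cases r : j = i
      · refine mono G (fun u hu => ?_) hA
        simp [Set.disjoint_left.1 dj hu, r, ci u (Or.inl hu)]
      · refine mono G (fun u (hu : c u = j) => ?_) (hc j)
        have : u ∉ B := fun s => r (hu.symm.trans (ci u (Or.inr s)))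
        simp [this, hu]
    · by_cases r : u ∈ B <;> simp_all
    · have := s (mem_filter.2 ⟨mem_univ v, (ci v (Or.inr hv)).symm ▸ Ne.symm n⟩)
      simp [hv] at this
  rintro ⟨A, B, e, dj, hA, ⟨b, hb⟩, dA, dB⟩
  have kB := key A B e dj dA
  have kA := key B A (e.trans (Set.union_comm _ _)) dj.symm dB
  have s : ∀ u, (p u).castLE h₁ = i → p u = p b := fun u hu =>
    Fin.castLE_injective h₁ (hu.trans (kB b hb).symm)
  refine (hp (p b)).2 ⟨{v | p v = p b} \ B, B, (Set.sdiff_union_of_subset fun u hu =>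
    s u (kB u hu)).symm, Set.disjoint_sdiff_left, hA.mono ?_, ⟨b, hb⟩, mono G ?_ dA, dB⟩
  all_goals exact fun u hu => ⟨s u (kA u hu), Set.disjoint_left.1 dj hu⟩

end Pool.Agent.Results.MP_a3f2aa_co.Interp
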